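import Pool.Agent.Lib_helper74.CKF.Basic

/-!
# Common definitions for the oracle with trapdoor permutations and collapse (MP_675993_lc)

The paper proof is `TDP_Proof_helper64.md`.
-/

set_option autoImplicit false

namespace Pool.Agent.TD

open Pool.Agent.CK

/-- bit strings -/
abbrev Str : Type := List Bool

instance instFintypeXTD (n : ℕ) : Fintype (X n) := inferInstanceAs (Fintype (List.Vector Bool n))

/-! ## Secrets: trapdoor permutations -/

/-- The secrets: for every length `n` a permutation `g n` of `{0,1}^n` (trapdoor to public key) and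
for every public key a permutation of `{0,1}^n`. -/
structure Sec where
  g : ∀ n : ℕ, Equiv.Perm (X n)
  f : ∀ n : ℕ, X n → Equiv.Perm (X n)

/-- left half of a string of length `2 * n` -/
def lf (n : ℕ) (w : Str) (h : w.length = 2 * n) : X n :=
  ⟨w.take n, by rw [List.length_take, h]; omega⟩

/-- right half of a string of length `2 * n` -/
def rg (n : ℕ) (w : Str) (h : w.length = 2 * n) : X n :=
  ⟨w.drop n, by rw [List.length_drop, h]; omega⟩

/-- key generation -/
def GG (S : Sec) (z : Str) : Str := (S.g z.length ⟨z, rfl⟩).1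

/-- evaluation: input `pk ++ x` -/
def FF (S : Sec) (w : Str) : Str :=
  if h : w.length = 2 * (w.length / 2) then (S.f _ (lf _ w h) (rg _ w h)).1 else []

/-- inversion with the trapdoor: input `td ++ y` -/
def HH (S : Sec) (w : Str) : Str :=
  if h : w.length = 2 * (w.length / 2) then ((S.f _ (S.g _ (lf _ w h))).symm (rg _ w h)).1 else []

/-- the preimage that an adversary has to find; `x = pk ++ y` -/
def vv (S : Sec) (n : ℕ) (x : X (2 * n)) : Str := ((S.f n (lf n x.1 x.2)).symm (rg n x.1 x.2)).1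

/-- the secret language: `pk ++ y ++ u` is in it if `F_pk^{-1}(y)` and `u` have a common `1` -/
def VV (S : Sec) : Lang := fun w =>
  if h : w.length = 3 * (w.length / 3) then
    (List.zipWith (fun a b => a && b)
      (vv S (w.length / 3) ⟨w.take (2 * (w.length / 3)), by rw [List.length_take]; omega⟩)
      (w.drop (2 * (w.length / 3)))).any id
  else false

/-- the `i`-th unit vector of length `n` -/
def unitv (n i : ℕ) : Str := (List.range n).map fun k => decide (k = i)

/-! ## The oracle -/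

/-- the value of the entry `(e, z)` -/
def val (S : Sec) (Tab : ℕ → Str → Str) (e : ℕ) (z : Str) : Str :=
  if e = 1 then GG S z else if e = 3 then FF S z else if e = 5 then HH S z else Tab e z

/-- the oracle with secrets `S` and tables `Tab` -/
noncomputable def orc (S : Sec) (Tab : ℕ → Str → Str) : Lang := fun w =>
  match tdec w with
  | none => false
  | some p => bit (val S Tab p.1.1 p.1.2) p.2

/-! ## Stages -/

/-- rank of the stage -/
def su (k : ℕ) : ℕ := Nat.sqrt k
/-- index of the machines of the stage -/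
def sj (k : ℕ) : ℕ := k - Nat.sqrt k * Nat.sqrt k
/-- number of the group of the stage -/
def st (k : ℕ) : ℕ := Nat.sqrt k - 2 * sj k
/-- active stages -/
def Act (t0 : ℕ → ℕ) (k : ℕ) : Prop := 5 ≤ sj k ∧ 2 * sj k ≤ su k ∧ t0 (sj k) ≤ st k
/-- index of the table -/
def se (k : ℕ) : ℕ := 2 ^ sj k
/-- lower bound of the group -/
def sm (k : ℕ) : ℕ := 2 ^ 2 ^ st k
/-- upper bound of the group -/
def sM (k : ℕ) : ℕ := 2 ^ 2 ^ (st k + 1)
/-- the level from which the hard core is taken -/
def sn (k : ℕ) : ℕ := 2 ^ 2 ^ (st k + 3)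
/-- lower bound for the lengths of the positions of the stage -/
def sD (k : ℕ) : ℕ := 2 ^ 2 ^ su k

/-- the entries of the stage -/
def ZSet (k : ℕ) : Set Str := {z | sm k ≤ z.length + 2 ∧ z.length + 2 < sM k}
/-- the entries of the stage -/
abbrev Z (k : ℕ) : Type := {z : Str // z ∈ ZSet k}
/-- length bound for questions -/
def qb (k : ℕ) : ℕ := (3 * sn k + 2) ^ (sj k + 1)
/-- possible values of entries -/
abbrev Q (k : ℕ) : Type := {q : Str // q.length ≤ qb k}

theorem finite_Z (k : ℕ) : Finite (Z k) :=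
  ((List.finite_length_le Bool (sM k)).subset fun z (hz : z ∈ ZSet k) => by
    have h := hz.2
    show z.length ≤ sM k
    omega).to_subtype

theorem finite_Q (k : ℕ) : Finite (Q k) := (List.finite_length_le Bool (qb k)).to_subtype

noncomputable instance instFintypeZ (k : ℕ) : Fintype (Z k) := @Fintype.ofFinite _ (finite_Z k)
noncomputable instance instFintypeQ (k : ℕ) : Fintype (Q k) := @Fintype.ofFinite _ (finite_Q k)

open Classical in
/-- positions of the stage -/
noncomputable def pos (k : ℕ) (w : Str) : Option (Z k × (ℕ × Bool)) :=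
  match tdec w with
  | none => none
  | some p => if h : p.1.1 = se k ∧ p.1.2 ∈ ZSet k then some (⟨p.1.2, h.2⟩, p.2) else none

/-- reading -/
def rd (k : ℕ) (q : Q k) (i : ℕ × Bool) : Bool := bit q.1 i

open Classical in
/-- write the table `T` of stage `k` -/
noncomputable def upd (Tab : ℕ → Str → Str) (k : ℕ) (T : Z k → Q k) : ℕ → Str → Str := fun e z =>
  if h : e = se k ∧ z ∈ ZSet k then (T ⟨z, h.2⟩).1 else Tab e z

/-- no entries at the stages from `k` on -/
def Blank (Tab : ℕ → Str → Str) (k : ℕ) : Prop :=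
  ∀ k', k ≤ k' → 5 ≤ sj k' → 2 * sj k' ≤ su k' → ∀ z ∈ ZSet k', Tab (se k') z = []

/-! ## Simulation of trees with values in `β` -/

section simB

variable {β Zt Qt ι : Type} [DecidableEq Zt]

/-- as `CK.sim`, for trees with arbitrary values; `d0` is the value if the list `r` is too short -/
def simB (d0 : β) (ps : Str → Option (Zt × ι)) (rd : Qt → ι → Bool) :
    DT β → List (Zt × Qt) → List Qt → DT β
  | DT.leaf b, _, _ => DT.leaf b
  | DT.node w n0 n1, ρ, r => match ps w with
    | none => DT.node w (simB d0 ps rd n0 ρ r) (simB d0 ps rd n1 ρ r)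
    | some (z, i) => match ρ.lookup z with
      | some q => if rd q i = true then simB d0 ps rd n1 ρ r else simB d0 ps rd n0 ρ r
      | none => match r with
        | [] => DT.leaf d0
        | q :: r => if rd q i = true then simB d0 ps rd n1 ((z, q) :: ρ) r
            else simB d0 ps rd n0 ((z, q) :: ρ) r

end simB

/-! ## Numerical parameters -/

/-- `Λ(n)`: monotone for `n ≥ 16`, larger than `n / (log n)^3` -/
def Lam (n : ℕ) : ℕ := 2 ^ (Nat.log 2 n + 1) / (Nat.log 2 n) ^ 3 + 1
/-- number of relevant stages -/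
def KK (n : ℕ) : ℕ := (Nat.log 2 (Lam n) + 1) ^ 2
/-- class size exponent -/
def aa (k n : ℕ) : ℕ := n / 3 + 2 + (KK n - k) * (2 * Lam n + 8)
/-- depth and length bound -/
def dd (n : ℕ) : ℕ := 2 ^ Lam n
/-- inverse of the success probability -/
def Del (k n : ℕ) : ℕ := 2 ^ (Lam n + 2 * (KK n - k))
/-- number of known entries -/
def ss (k n : ℕ) : ℕ := 2 ^ (Lam n + aa (k + 1) n + 2)
/-- inverse of the hard core parameter -/
def NN (k : ℕ) : ℕ := 4 * dd (3 * sM k) * 2 ^ (Lam (3 * sM k) + 2 * KK (3 * sM k))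
/-- bound for the number of tests -/
def lenk (k : ℕ) : ℕ := 4 * (NN k) ^ 2 * (2 * (qb k + 1) + 1)

/-! ## Adversaries -/

/-- families of adversaries -/
abbrev Fam : Type := ∀ n : ℕ, Set (X (2 * n) → DT Str)

/-- number of inputs of level `n` on which the adversary succeeds -/
def hits (n : ℕ) (v : X (2 * n) → Str) (A : X (2 * n) → DT Str) (O : Lang) : ℕ :=
  (Finset.univ.filter fun x => (A x).eval O = v x).card

/-- Simulations. -/
def Sim (k n : ℕ) (Fm : Set (X (2 * n) → DT Str)) : Set (X (2 * n) → DT Str) :=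
  {A' | ∃ A ∈ Fm, ∃ ρ : List (Z k × Q k), ρ.length ≤ ss k n ∧ ∃ r : List (Q k),
    r.length = dd n ∧ A' = fun x => simB [] (pos k) (rd k) (A x) ρ r}

/-- Data of a test: the tree, the value, known entries, entries before and after the argument. -/
structure Tst (k : ℕ) where
  τ : DT Str
  b : Str
  ρ : List (Z k × Q k)
  pre : List (Q k)
  post : List (Q k)

/-- the tree of a test -/
noncomputable def Tst.tree {k : ℕ} (t : Tst k) (q : Q k) : DT Bool :=
  (simB [] (pos k) (rd k) t.τ t.ρ (t.pre ++ q :: t.post)).map fun y => y == t.b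

/-- admissible tests -/
def TstOK (n0 k : ℕ) (Fm : Fam) (t : Tst k) : Prop :=
  ∃ n, n0 ≤ n ∧ n < 3 * sM k ∧ k < KK n ∧ (∃ A ∈ Fm n, ∃ x, t.τ = A x) ∧ t.b.length = n ∧
    t.ρ.length ≤ ss k n ∧ t.pre.length ≤ dd n ∧ t.post.length ≤ dd n

/-- run trees one after the other and collect the answers -/
def seqT : List (DT Bool) → DT Str
  | [] => DT.leaf []
  | t :: l => t.bind fun b => (seqT l).map fun y => b :: y

/-- find the preimage by means of the `i`-th Turing reduction of `VV` -/
def invTree (i n : ℕ) (x : Str) : DT Str :=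
  seqT ((List.range n).map fun k => PT i (x ++ unitv n k))

/-- answers of the questions to the target language by a threshold of tests -/
noncomputable def thrT {k : ℕ} (l : List (Tst k)) (θ : ℕ) (w : Str) : DT Bool :=
  if h : w.length ≤ qb k then DT.thr (l.map fun t => t.tree ⟨w, h⟩) θ else DT.leaf false

/-- The reduction with its questions answered by a threshold of tests. -/
def Cmp (n0 k : ℕ) (Fm : Fam) (n : ℕ) : Set (X (2 * n) → DT Str) :=
  {A' | n = sn k ∧ ∃ l : List (Tst k), l.length ≤ lenk k ∧ (∀ t ∈ l, TstOK n0 k Fm t) ∧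
    ∃ θ ≤ l.length + 1, A' = fun x => DT.tr (thrT l θ) (invTree (iM (sj k)) n x.1)}

open Classical in
/-- The derived family. -/
noncomputable def Next (t0 : ℕ → ℕ) (n0 k : ℕ) (Fm : Fam) : Fam := fun n =>
  if Act t0 k then (if k < KK n then Sim k n (Fm n) else Fm n) ∪ Cmp n0 k Fm n else Fm n

/-- the families at the stages `top - r` -/
noncomputable def Cl (t0 : ℕ → ℕ) (n0 : ℕ) (fin : Fam) (top : ℕ) : ℕ → Fam
  | 0 => fin
  | r + 1 => Next t0 n0 (top - (r + 1)) (Cl t0 n0 fin top r)

/-- bounds for number, depth and questions -/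
def Bdd (n0 k : ℕ) (Fm : Fam) : Prop :=
  ∀ n, n0 ≤ n → (Fm n).Finite ∧ (Fm n).ncard ≤ 2 ^ 2 ^ aa k n ∧
    ∀ A ∈ Fm n, ∀ x, (A x).depth ≤ dd n ∧ (A x).AllQ fun w => w.length ≤ dd n

/-- all adversaries of the family are defeated -/
def Def (n0 k : ℕ) (S : Sec) (O : Lang) (Fm : Fam) : Prop :=
  ∀ n, n0 ≤ n → ∀ A ∈ Fm n, Del k n * hits n (vv S n) A O < 4 ^ n

/-- the final family with horizon `N` -/
def FinF (N : ℕ) : Fam := fun n =>
  {A | n ≤ N ∧ ∃ c : Cmd, Encodable.encode c ≤ n ∧ ∃ w : Str, w.length ≤ 2 ^ (Lam n - 1) ∧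
    ∃ t ≤ 2 ^ (Lam n - 1), A = fun x => (runTree t ([c], init x.1 w)).map fun cf => cf.2 0}

/-! ## Goals of the stages -/

/-- the Turing reduction is correct on the relevant strings of the level `sn k` -/
def Corr (S : Sec) (k : ℕ) (O : Lang) : Prop :=
  ∀ x : X (2 * sn k), ∀ i < sn k,
    PL (iM (sj k)) (join O (NL (iC (sj k)) O)) (x.1 ++ unitv (sn k) i) = VV S (x.1 ++ unitv (sn k) i)

/-- what the table of stage `k` has to do -/
def Goal (S : Sec) (k : ℕ) (O : Lang) (Tab : ℕ → Str → Str) : Prop :=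
  (∀ z ∈ ZSet k, (Tab (se k) z).length ≤ qb k) ∧
  (Corr S k O → (∀ z ∈ ZSet k, NL (iC (sj k)) O (Tab (se k) z) = NL (iN (sj k)) O z) ∧
    ∃ q0 q1 : Str, q0.length ≤ qb k ∧ q1.length ≤ qb k ∧ NL (iC (sj k)) O q0 = false ∧
      NL (iC (sj k)) O q1 = true)

/-- numerical conditions for a level -/
structure NumN (n : ℕ) : Prop where
  h16 : 16 ≤ n
  ha0 : aa 0 n + 3 ≤ n / 2
  hkk : 4 * Lam n + 4 * KK n + 11 ≤ n
  hb : 2 * n ≤ 2 ^ (Lam n - 1)
  hc : 2 ^ (aa 0 n) + 2 * n + 3 ≤ 2 ^ (n - (2 * Lam n + 2 * KK n + 3))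
  hL : Lam n ≤ n / 3

/-- numerical conditions for an active stage -/
structure NumK (n0 k : ℕ) : Prop where
  /-- level `sn k` is protected and stage `k` is relevant for it -/
  hn0 : n0 ≤ sn k
  hK : k < KK (sn k)
  /-- depth and lengths of the inversion tree with tests -/
  hdepth : sn k * ((3 * sn k + 2) ^ (sj k) * (lenk k * dd (3 * sM k) + 1)) ≤ dd (sn k)
  hlen : qb k ≤ dd (sn k)
  hdd : dd (3 * sM k) ≤ dd (sn k)
  /-- number of derived adversaries -/
  hcard : (lenk k + 2) * 2 ^ (2 * Lam (3 * sM k) + aa 0 (3 * sM k) + 8) + lenk k + 2 ≤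
    2 ^ (sn k / 3)

/-- The largest size of a hitting set in the base case. -/
def kk (n : ℕ) : ℕ := 2 ^ (n - (2 * Lam n + 2 * KK n + 3))

/-! ## Agreement of oracles and security at a level -/

/-- agreement of two oracles on everything that is described by numbers up to `b` -/
def Agree (b : ℕ) (S S' : Sec) (Tab Tab' : ℕ → Str → Str) : Prop :=
  (∀ n, n ≤ b → S.g n = S'.g n ∧ S.f n = S'.f n) ∧
    ∀ e, e ≤ b → ∀ z : Str, z.length ≤ b → Tab e z = Tab' e z

/-- security at level `n` -/
def SecAt (S : Sec) (Tab : ℕ → Str → Str) (n : ℕ) : Prop :=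
  ∀ A ∈ FinF n n, 2 ^ Lam n * hits n (vv S n) A (orc S Tab) < 4 ^ n

end Pool.Agent.TD
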